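import Pool.Agent.Q293.HF.Stm

/-! # The affine fibres in the universal covering

Job KU of project HF of helper293. -/

set_option autoImplicit false

open Topology Filter

namespace Pool.Agent.Q162.HF.KU

open Pool.Agent.Q293.HF Pool.Agent.Helper922.HB

section

variable {E E' : Type} [TopologicalSpace E] [TopologicalSpace E']

theorem aug_push (f : C(E, E')) (n : ℕ) (z : Sing E n →₀ ℤ) :
    aug E' n (push f n z) = aug E n z := by
  have h : (aug E' n).comp (push f n) = aug E n := by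
    apply Finsupp.lhom_ext'
    intro σ
    apply LinearMap.ext_ring
    simp [aug, push]
  exact LinearMap.congr_fun h z

theorem PP_apply (g : C(E, E)) (n : ℕ) (z : Sing E n →₀ ℤ) :
    PP g n z = z - push g n z + push g n (push g n z) := rfl

theorem push_PP (g : C(E, E)) (g' : C(E', E')) (φ : C(E, E')) (h : φ.comp g = g'.comp φ) (n : ℕ)
    (z : Sing E n →₀ ℤ) : push φ n (PP g n z) = PP g' n (push φ n z) := by
  rw [PP_apply, PP_apply, map_add, map_sub]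
  have h1 : ∀ w : Sing E n →₀ ℤ, push φ n (push g n w) = push g' n (push φ n w) := by
    intro w
    rw [push_push, push_push, h]
  rw [h1, h1, h1]

theorem killRed_transport (g : C(E, E)) (g' : C(E', E')) (φ : C(E, E')) (ψ : C(E', E))
    (h1 : φ.comp ψ = ContinuousMap.id E') (h2 : φ.comp g = g'.comp φ) (h : KillRed g) :
    KillRed g' := by
  intro n z hz haug
  have h3 : push φ n (push ψ n z) = z := by
    rw [push_push, h1, push_id]
  have h4 := h n (push ψ n z) (push_mem_Cyc ψ n z hz) (fun hn => by rw [aug_push, haug hn])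
  have h5 := push_mem_Bdy φ n _ h4
  rwa [push_PP g g' φ h2, h3] at h5

end

theorem om_cube : om ^ 3 = 1 := by
  unfold om
  rw [← Complex.exp_nat_mul]
  have : ((3 : ℕ) : ℂ) * (2 * Real.pi * Complex.I / 3) = 2 * Real.pi * Complex.I := by
    push_cast
    ring
  rw [this, Complex.exp_two_pi_mul_I]

theorem gU_eq (e : ℂ × (ℂ × ℂ)) :
    gU e = (e.1 + -(Real.log 2 : ℂ), (om * e.2.1, -e.2.2)) := rfl

theorem gU_mem (t : ℂ) (e : ℂ × (ℂ × ℂ)) (he : e.2.2 ^ 2 - e.2.1 ^ 3 = t) :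
    (gU e).2.2 ^ 2 - (gU e).2.1 ^ 3 = t := by
  rw [gU_eq]
  show (-e.2.2) ^ 2 - (om * e.2.1) ^ 3 = t
  rw [mul_pow, om_cube, neg_sq, one_mul]
  exact he

/-- the restriction of the shift to the fibre -/
noncomputable def gB (t : ℂ) : C(↥{e : ℂ × (ℂ × ℂ) | e.2.2 ^ 2 - e.2.1 ^ 3 = t},
    ↥{e : ℂ × (ℂ × ℂ) | e.2.2 ^ 2 - e.2.1 ^ 3 = t}) :=
  ⟨fun e => ⟨gU e.1, gU_mem t e.1 e.2⟩,
    (gU.continuous.comp continuous_subtype_val).subtype_mk _⟩

/-- scaling -/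
noncomputable def phi (a b c : ℂ) (hc : c ^ 6 * a = b) :
    C(↥{e : ℂ × (ℂ × ℂ) | e.2.2 ^ 2 - e.2.1 ^ 3 = a}, ↥{e : ℂ × (ℂ × ℂ) | e.2.2 ^ 2 - e.2.1 ^ 3 = b}) :=
  ⟨fun e => ⟨(e.1.1, (c ^ 2 * e.1.2.1, c ^ 3 * e.1.2.2)), by
    have h : e.1.2.2 ^ 2 - e.1.2.1 ^ 3 = a := e.2
    show (c ^ 3 * e.1.2.2) ^ 2 - (c ^ 2 * e.1.2.1) ^ 3 = b
    linear_combination c ^ 6 * h + hc⟩, by fun_prop⟩

theorem ku (hF1 : S_F1) (hCTR : S_CTR) : S_KU := by
  intro t ht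
  obtain ⟨c, hc⟩ := IsAlgClosed.exists_pow_nat_eq t (n := 6) (by norm_num)
  have hc0 : c ≠ 0 := by
    rintro rfl
    apply ht
    rw [← hc]
    norm_num
  have hne : ({e : ℂ × (ℂ × ℂ) | e.2.2 ^ 2 - e.2.1 ^ 3 = t}).Nonempty := by
    refine ⟨(0, (0, c ^ 3)), ?_⟩
    show (c ^ 3) ^ 2 - 0 ^ 3 = t
    rw [← hc]
    ring
  refine hCTR (ℂ × (ℂ × ℂ)) gU _ hne (gB t) (fun x => rfl) ?_
  refine killRed_transport (gB 1) (gB t) (phi 1 t c (by rw [mul_one, hc]))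
    (phi t 1 c⁻¹ (by rw [← hc, inv_pow, inv_mul_cancel₀ (pow_ne_zero 6 hc0)])) ?_ ?_
    (hF1 (gB 1) fun e => rfl)
  · ext e : 2
    refine Prod.ext rfl ?_
    show (c ^ 2 * (c⁻¹ ^ 2 * e.1.2.1), c ^ 3 * (c⁻¹ ^ 3 * e.1.2.2)) = e.1.2
    rw [← mul_assoc, ← mul_assoc, ← mul_pow, ← mul_pow, mul_inv_cancel₀ hc0, one_pow, one_pow,
      one_mul, one_mul]
  · ext e : 2
    refine Prod.ext rfl ?_
    show (c ^ 2 * (om * e.1.2.1), c ^ 3 * (-e.1.2.2)) = (om * (c ^ 2 * e.1.2.1), -(c ^ 3 * e.1.2.2))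
    rw [mul_neg, mul_left_comm]

end Pool.Agent.Q162.HF.KU
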