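import Pool.Agent.Q293.HF.Stm

/-! # Free actions of `ℤ` with a height function are covering space actions

Job ZC of project HF of helper293. -/

set_option autoImplicit false

open Topology Filter

namespace Pool.Agent.Q162.HF.ZC

open Pool.Agent.Q293.HF Pool.Agent.Helper922.HB

section

variable {E : Type} [TopologicalSpace E] (g : E ≃ₜ E)

theorem r_pow (r : C(E, ℝ)) (hr : ∀ e, r (g e) = r e + 1) (n : ℕ) (e : E) :
    r ((g ^ n) e) = r e + n := by
  induction n generalizing e with
  | zero => simp
  | succ n ih =>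
    rw [pow_succ, Homeomorph.mul_apply, ih, hr]
    push_cast
    ring

theorem r_zpow (r : C(E, ℝ)) (hr : ∀ e, r (g e) = r e + 1) (k : ℤ) (e : E) :
    r ((g ^ k) e) = r e + k := by
  obtain ⟨n, rfl | rfl⟩ := k.eq_nat_or_neg
  · rw [zpow_natCast]
    exact_mod_cast r_pow g r hr n e
  · have h := r_pow g r hr n ((g ^ (-(n : ℤ))) e)
    rw [← Homeomorph.mul_apply, ← zpow_natCast, ← zpow_add, add_neg_cancel, zpow_zero,
      Homeomorph.one_apply] at h
    push_cast
    linarith

theorem p_pow {X : Type} [TopologicalSpace X] (p : C(E, X)) (hp : ∀ e, p (g e) = p e) (n : ℕ)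
    (e : E) : p ((g ^ n) e) = p e := by
  induction n generalizing e with
  | zero => simp
  | succ n ih => rw [pow_succ, Homeomorph.mul_apply, ih, hp]

theorem p_zpow {X : Type} [TopologicalSpace X] (p : C(E, X)) (hp : ∀ e, p (g e) = p e) (k : ℤ)
    (e : E) : p ((g ^ k) e) = p e := by
  obtain ⟨n, rfl | rfl⟩ := k.eq_nat_or_neg
  · rw [zpow_natCast]
    exact p_pow g p hp n e
  · have h := p_pow g p hp n ((g ^ (-(n : ℤ))) e)
    rw [← Homeomorph.mul_apply, ← zpow_natCast, ← zpow_add, add_neg_cancel, zpow_zero,
      Homeomorph.one_apply] at h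
    exact h.symm

end

theorem zc : S_ZC := by
  intro E X _ _ p g r hr ho hs hi hf
  have key := r_zpow g r hr
  let _ : AddAction ℤ E :=
    { vadd := fun k e => (g ^ k) e
      zero_vadd := fun e => by
        show (g ^ (0 : ℤ)) e = e
        rw [zpow_zero, Homeomorph.one_apply]
      add_vadd := fun a b e => by
        show (g ^ (a + b)) e = (g ^ a) ((g ^ b) e)
        rw [zpow_add, Homeomorph.mul_apply] }
  have hv : ∀ (k : ℤ) (e : E), k +ᵥ e = (g ^ k) e := fun _ _ => rfl
  have hq : IsAddQuotientCoveringMap p ℤ :=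
    { toIsQuotientMap := ho.isQuotientMap p.continuous hs
      toContinuousConstVAdd := ⟨fun k => (g ^ k).continuous⟩
      apply_eq_iff_mem_orbit := by
        intro e₁ e₂
        constructor
        · intro h
          obtain ⟨k, hk⟩ := hf e₂ e₁ h.symm
          exact ⟨k, hk⟩
        · rintro ⟨k, hk⟩
          have hk' : (g ^ k) e₂ = e₁ := hk
          rw [← hk', p_zpow g p hi k e₂]
      disjoint := by
        intro e
        refine ⟨{x | |r x - r e| < 1 / 4}, ?_, ?_⟩
        · refine IsOpen.mem_nhds ?_ ?_
          · exact isOpen_lt (by fun_prop) continuous_const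
          · show |r e - r e| < 1 / 4
            rw [sub_self, abs_zero]
            norm_num
        · rintro k ⟨_, ⟨x, hx, rfl⟩, hy⟩
          have hx' : |r x - r e| < 1 / 4 := hx
          have hy' : |r ((g ^ k) x) - r e| < 1 / 4 := hy
          rw [key] at hy'
          have h1 : |(k : ℝ)| < 1 := by
            rw [abs_lt] at hx' hy' ⊢
            constructor <;> linarith [hx'.1, hx'.2, hy'.1, hy'.2]
          have h2 : |k| < 1 := by exact_mod_cast h1
          exact Int.abs_lt_one_iff.1 h2 }
  refine ⟨hq.isCoveringMap, hs, hi, hf, fun k e he => ?_⟩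
  have h := key k e
  rw [he] at h
  have h2 : (k : ℝ) = 0 := by linarith
  exact_mod_cast h2

end Pool.Agent.Q162.HF.ZC
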